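import Mathlib
import Pool.Agent.Results.MP_b69c94_gt.SquareNotLindelof

/-!
# A Rothberger space which is not `ω`-Rothberger

The space is the topological sum of two topologies on one Aronszajn tree `T`, given by two disjoint
stationary sets `A`, `B` of limit levels (these spaces are from the file
`Pool.Agent.Results.MP_b69c94_gt.SquareNotLindelof`, where their Lindelöf property is proved): a node
`p` of a level in `A` has the neighbourhoods `{u | s < u, not p ≤ u} ∪ {p}`, `s < p`, all other nodes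
are isolated. By a pressing down argument applied to pairs of covers, for every sequence of open
covers there is a level `b` such that for every node `t` of level `b` and all `n`, `m` the nodes above
`t` are covered by one member of the `n`-th and one member of the `m`-th cover. As the level `b` and
the part of the tree below it are countable, this gives the Rothberger property. The diagonal of the
product of the two topologies is an uncountable closed discrete set, so the square of the sum is not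
Lindelöf, whereas squares of `ω`-Rothberger spaces are Lindelöf.
-/

set_option autoImplicit false

open Set Topology

namespace Pool.Agent.Results.MP_f9bcb0_lc.NotOmegaRothberger

/-! ### Definitions -/

section defs

variable {X : Type} [TopologicalSpace X]

/-- `𝒰` is an open cover of `X`: a family of open subsets of `X` whose union is `X`. -/
def IsOpenCover (𝒰 : Set (Set X)) : Prop := (∀ U ∈ 𝒰, IsOpen U) ∧ ⋃₀ 𝒰 = univ

/-- `𝒰` is an `ω`-cover of `X`: an open cover with `X ∉ 𝒰` such that every finite subset of `X` is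
contained in some member of `𝒰`. -/
def IsOmegaCover (𝒰 : Set (Set X)) : Prop :=
  IsOpenCover 𝒰 ∧ univ ∉ 𝒰 ∧ ∀ F : Set X, F.Finite → ∃ U ∈ 𝒰, F ⊆ U

variable (X)

/-- `X` is Rothberger: for every sequence `𝒰 n` of open covers of `X` there are `U n ∈ 𝒰 n` such
that `{U n : n}` is an open cover of `X`. -/
def Rothberger : Prop :=
  ∀ 𝒰 : ℕ → Set (Set X), (∀ n, IsOpenCover (𝒰 n)) →
    ∃ U : ℕ → Set X, (∀ n, U n ∈ 𝒰 n) ∧ IsOpenCover (range U)

/-- `X` is `ω`-Rothberger: for every sequence `𝒰 n` of `ω`-covers of `X` there are `U n ∈ 𝒰 n` such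
that `{U n : n}` is an `ω`-cover of `X`. -/
def OmegaRothberger : Prop :=
  ∀ 𝒰 : ℕ → Set (Set X), (∀ n, IsOmegaCover (𝒰 n)) →
    ∃ U : ℕ → Set X, (∀ n, U n ∈ 𝒰 n) ∧ IsOmegaCover (range U)

end defs

/-! ### General lemmas -/

section general

variable {X Y Z : Type} [TopologicalSpace X] [TopologicalSpace Y]

theorem rothberger_iff : Rothberger X ↔ ∀ 𝒰 : ℕ → Set (Set X), (∀ n, IsOpenCover (𝒰 n)) →
    ∃ U : ℕ → Set X, (∀ n, U n ∈ 𝒰 n) ∧ ∀ x, ∃ n, x ∈ U n := by
  constructor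
  · intro h 𝒰 h𝒰
    obtain ⟨U, hU, -, hcov⟩ := h 𝒰 h𝒰
    refine ⟨U, hU, fun x => ?_⟩
    have hx : x ∈ ⋃₀ range U := by rw [hcov]; trivial
    obtain ⟨_, ⟨n, rfl⟩, hn⟩ := hx
    exact ⟨n, hn⟩
  · intro h 𝒰 h𝒰
    obtain ⟨U, hU, hcov⟩ := h 𝒰 h𝒰
    refine ⟨U, hU, ?_, ?_⟩
    · rintro _ ⟨n, rfl⟩
      exact (h𝒰 n).1 _ (hU n)
    · rw [eq_univ_iff_forall]
      intro x
      obtain ⟨n, hn⟩ := hcov x
      exact ⟨U n, mem_range_self n, hn⟩

/-- Topological sums of two Rothberger spaces are Rothberger. -/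
theorem rothberger_sum (hX : Rothberger X) (hY : Rothberger Y) : Rothberger (X ⊕ Y) := by
  rw [rothberger_iff] at hX hY ⊢
  intro 𝒰 h𝒰
  have hcX : ∀ n, IsOpenCover ((fun U : Set (X ⊕ Y) => Sum.inl ⁻¹' U) '' 𝒰 (2 * n)) := by
    intro n
    refine ⟨?_, ?_⟩
    · rintro _ ⟨U, hU, rfl⟩
      exact ((h𝒰 _).1 U hU).preimage continuous_inl
    · rw [eq_univ_iff_forall]
      intro x
      have hx : (Sum.inl x : X ⊕ Y) ∈ ⋃₀ 𝒰 (2 * n) := by rw [(h𝒰 _).2]; trivial
      obtain ⟨U, hU, hxU⟩ := hx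
      exact ⟨_, ⟨U, hU, rfl⟩, hxU⟩
  have hcY : ∀ n, IsOpenCover ((fun U : Set (X ⊕ Y) => Sum.inr ⁻¹' U) '' 𝒰 (2 * n + 1)) := by
    intro n
    refine ⟨?_, ?_⟩
    · rintro _ ⟨U, hU, rfl⟩
      exact ((h𝒰 _).1 U hU).preimage continuous_inr
    · rw [eq_univ_iff_forall]
      intro x
      have hx : (Sum.inr x : X ⊕ Y) ∈ ⋃₀ 𝒰 (2 * n + 1) := by rw [(h𝒰 _).2]; trivial
      obtain ⟨U, hU, hxU⟩ := hx
      exact ⟨_, ⟨U, hU, rfl⟩, hxU⟩
  obtain ⟨V, hV, hVc⟩ := hX _ hcX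
  obtain ⟨W, hW, hWc⟩ := hY _ hcY
  choose V' hV' hVV using hV
  choose W' hW' hWW using hW
  refine ⟨fun n => if n % 2 = 0 then V' (n / 2) else W' (n / 2), fun n => ?_, ?_⟩
  · by_cases h : n % 2 = 0
    · simp only [if_pos h]
      have := hV' (n / 2)
      rwa [show 2 * (n / 2) = n by omega] at this
    · simp only [if_neg h]
      have := hW' (n / 2)
      rwa [show 2 * (n / 2) + 1 = n by omega] at this
  · rintro (x | y)
    · obtain ⟨n, hn⟩ := hVc x
      refine ⟨2 * n, ?_⟩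
      simp only [show 2 * n % 2 = 0 by omega, if_true, show 2 * n / 2 = n by omega]
      rw [← hVV n] at hn
      exact hn
    · obtain ⟨n, hn⟩ := hWc y
      refine ⟨2 * n + 1, ?_⟩
      simp only [show (2 * n + 1) % 2 = 1 by omega, show (2 * n + 1) / 2 = n by omega]
      rw [← hWW n] at hn
      exact hn

/-- The square of an `ω`-Rothberger space is Lindelöf. -/
theorem lindelof_square (h : OmegaRothberger X) : LindelofSpace (X × X) := by
  classical
  refine ⟨isLindelof_of_countable_subcover fun {ι} W hW hcov => ?_⟩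
  by_cases hfin : ∃ s : Finset ι, (univ : Set (X × X)) ⊆ ⋃ i ∈ s, W i
  · obtain ⟨s, hs⟩ := hfin
    exact ⟨↑s, s.countable_toSet, by simpa using hs⟩
  · let 𝒰 : Set (Set X) := {U | IsOpen U ∧ ∃ s : Finset ι, U ×ˢ U ⊆ ⋃ i ∈ s, W i}
    have hF : ∀ F : Set X, F.Finite → ∃ U ∈ 𝒰, F ⊆ U := by
      intro F hF
      have hcomp : IsCompact (F ×ˢ F) := (hF.prod hF).isCompact
      obtain ⟨s, hs⟩ := hcomp.elim_finite_subcover W hW fun x _ => hcov (mem_univ x)
      obtain ⟨u, v, hu, hv, hFu, hFv, huv⟩ := generalized_tube_lemma hF.isCompact hF.isCompact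
        (isOpen_biUnion fun i _ => hW i) hs
      exact ⟨u ∩ v, ⟨hu.inter hv, s, (prod_mono inter_subset_left inter_subset_right).trans huv⟩,
        subset_inter hFu hFv⟩
    have h𝒰 : IsOmegaCover 𝒰 := by
      refine ⟨⟨fun U hU => hU.1, ?_⟩, ?_, hF⟩
      · rw [eq_univ_iff_forall]
        intro x
        obtain ⟨U, hU, hxU⟩ := hF {x} (finite_singleton x)
        exact ⟨U, hU, hxU rfl⟩
      · rintro ⟨-, s, hs⟩
        exact hfin ⟨s, by rwa [univ_prod_univ] at hs⟩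
    obtain ⟨U, hU, -, -, hUF⟩ := h (fun _ => 𝒰) fun _ => h𝒰
    choose s hs using fun n => (hU n).2
    refine ⟨⋃ n, (s n : Set ι), countable_iUnion fun n => (s n).countable_toSet, ?_⟩
    rintro ⟨x, y⟩ -
    obtain ⟨_, ⟨n, rfl⟩, hn⟩ := hUF {x, y} (by simp)
    have hxy : (x, y) ∈ ⋃ i ∈ s n, W i := hs n ⟨hn (by simp), hn (by simp)⟩
    obtain ⟨i, hi, hxyi⟩ := mem_iUnion₂.1 hxy
    exact mem_biUnion (x := i) (mem_iUnion.2 ⟨n, hi⟩) hxyi

end general

/-! ### The trees -/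

open Pool.Agent.Results.MP_b69c94_gt.SquareNotLindelof

section tree

variable {Ω T : Type} [LinearOrder Ω] [PartialOrder T] (𝒯 : ATree Ω T)

/-- The tree topology given by a stationary set of levels is Rothberger. -/
theorem rothberger_tree [WellFoundedLT Ω] [Uncountable Ω] (hc : ∀ a : Ω, (Iio a).Countable)
    (A : Set Ω) (hA : ¬ MP_b69c94_gt.SquareNotLindelof.Small A) (hAL : ∀ a ∈ A, Lim a)
    [Nonempty T] : Rothberger (Sp 𝒯 A) := by
  classical
  rw [rothberger_iff]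
  intro 𝒰 h𝒰
  have hcov : ∀ n (x : T), ∃ U ∈ 𝒰 n, x ∈ U := by
    intro n x
    have hx : x ∈ ⋃₀ 𝒰 n := by rw [(h𝒰 n).2]; trivial
    exact hx
  -- the levels for pairs of covers
  have key : ∀ p : ℕ × ℕ, ∃ a, ∀ t, 𝒯.lv t = a →
      ∃ U ∈ 𝒰 p.1, ∃ V ∈ 𝒰 p.2, {u : T | t < u} ⊆ U ∪ V := by
    rintro ⟨n, m⟩
    apply level_lemma 𝒯 A hA
      (fun s p => (∃ U ∈ 𝒰 n, Nb s p ⊆ U) ∧ ∃ V ∈ 𝒰 m, Nb s p ⊆ V)
    · rintro s t hst ⟨U, hU, V, hV, hUV⟩
      exact ⟨U, hU, V, hV, fun u hu => hUV (hst.trans_lt hu)⟩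
    · intro p hp
      obtain ⟨r, hr⟩ := exists_lt (hAL _ hp)
      obtain ⟨U, hU, hpU⟩ := hcov n p
      obtain ⟨V, hV, hpV⟩ := hcov m p
      obtain ⟨s, hs, hsU⟩ := (h𝒰 n).1 U hU p hpU hp r hr
      obtain ⟨s', hs', hsV⟩ := (h𝒰 m).1 V hV p hpV hp r hr
      rcases 𝒯.tree hs.le hs'.le with h | h
      · exact ⟨s', hs', ⟨U, hU, (Nb_mono h).trans hsU⟩, V, hV, hsV⟩
      · exact ⟨s, hs, ⟨U, hU, hsU⟩, V, hV, (Nb_mono h).trans hsV⟩
    · rintro s p p' - - ⟨⟨U, hU, hsU⟩, -⟩ ⟨-, V, hV, hsV⟩ h1 h2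
      refine ⟨U, hU, V, hV, fun u hu => ?_⟩
      rcases cone_subset 𝒯 hu h1 h2 with h3 | h3
      · exact Or.inl (hsU h3)
      · exact Or.inr (hsV h3)
  choose a ha using key
  obtain ⟨b, hb⟩ := exists_gt hc (countable_range a)
  have hgood : ∀ t, 𝒯.lv t = b → ∀ n m, ∃ U ∈ 𝒰 n, ∃ V ∈ 𝒰 m, {u : T | t < u} ⊆ U ∪ V := by
    intro t ht n m
    obtain ⟨s, hst, hs⟩ := 𝒯.restr t (a (n, m)) (by
      rw [ht]
      exact (hb _ (mem_range_self (n, m))).le)
    obtain ⟨U, hU, V, hV, hUV⟩ := ha (n, m) s hs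
    exact ⟨U, hU, V, hV, fun u hu => hUV (hst.trans_lt hu)⟩
  -- enumerations
  have hcount : {t : T | 𝒯.lv t ≤ b}.Countable := by
    have h1 : {t : T | 𝒯.lv t ≤ b} = {t | 𝒯.lv t < b} ∪ {t | 𝒯.lv t = b} := by
      ext t
      exact le_iff_lt_or_eq
    rw [h1]
    exact (below_countable 𝒯 hc b).union (𝒯.cnt b)
  have hne : {t : T | 𝒯.lv t ≤ b}.Nonempty := by
    obtain ⟨x⟩ := (inferInstance : Nonempty T)
    rcases le_or_gt (𝒯.lv x) b with h | h
    · exact ⟨x, h⟩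
    · obtain ⟨t, -, ht⟩ := 𝒯.restr x b h.le
      exact ⟨t, ht.le⟩
  obtain ⟨f, hf⟩ := hcount.exists_eq_range hne
  have hsel : ∀ k : ℕ, ∃ U ∈ 𝒰 (3 * k), ∃ V ∈ 𝒰 (3 * k + 1),
      𝒯.lv (f k) = b → {u : T | f k < u} ⊆ U ∪ V := by
    intro k
    by_cases h : 𝒯.lv (f k) = b
    · obtain ⟨U, hU, V, hV, hUV⟩ := hgood (f k) h (3 * k) (3 * k + 1)
      exact ⟨U, hU, V, hV, fun _ => hUV⟩
    · obtain ⟨U, hU, -⟩ := hcov (3 * k) (f k)
      obtain ⟨V, hV, -⟩ := hcov (3 * k + 1) (f k)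
      exact ⟨U, hU, V, hV, fun h' => absurd h' h⟩
  choose U hU V hV hUV using hsel
  have hsel' : ∀ k : ℕ, ∃ W ∈ 𝒰 (3 * k + 2), f k ∈ W := fun k => hcov _ _
  choose W hW hfW using hsel'
  refine ⟨fun n => if n % 3 = 0 then U (n / 3) else if n % 3 = 1 then V (n / 3) else W (n / 3),
    fun n => ?_, fun x => ?_⟩
  · rcases (show n % 3 = 0 ∨ n % 3 = 1 ∨ n % 3 = 2 by omega) with h | h | h
    · simp only [h, if_true]
      have := hU (n / 3)
      rwa [show 3 * (n / 3) = n by omega] at this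
    · simp only [h, if_true, one_ne_zero, if_false]
      have := hV (n / 3)
      rwa [show 3 * (n / 3) + 1 = n by omega] at this
    · simp only [h, show (2 : ℕ) ≠ 0 by omega, show (2 : ℕ) ≠ 1 by omega, if_false]
      have := hW (n / 3)
      rwa [show 3 * (n / 3) + 2 = n by omega] at this
  · have hx : ∃ k, f k = x ∨ (𝒯.lv (f k) = b ∧ f k < (show T from x)) := by
      rcases le_or_gt (𝒯.lv x) b with h | h
      · have hxr : x ∈ range f := by
          rw [← hf]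
          exact h
        obtain ⟨k, hk⟩ := hxr
        exact ⟨k, Or.inl hk⟩
      · obtain ⟨t, htx, ht⟩ := 𝒯.restr x b h.le
        have htr : t ∈ range f := by
          rw [← hf]
          exact ht.le
        obtain ⟨k, hk⟩ := htr
        refine ⟨k, Or.inr ⟨by rw [hk, ht], ?_⟩⟩
        rw [hk]
        refine lt_of_le_of_ne htx ?_
        rintro rfl
        rw [ht] at h
        exact lt_irrefl _ h
    obtain ⟨k, hk | ⟨hk, hkx⟩⟩ := hx
    · refine ⟨3 * k + 2, ?_⟩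
      simp only [show (3 * k + 2) % 3 = 2 by omega, show (2 : ℕ) ≠ 0 by omega,
        show (2 : ℕ) ≠ 1 by omega, if_false, show (3 * k + 2) / 3 = k by omega]
      rw [← hk]
      exact hfW k
    · rcases hUV k hk hkx with h | h
      · refine ⟨3 * k, ?_⟩
        simp only [show 3 * k % 3 = 0 by omega, if_true, show 3 * k / 3 = k by omega]
        exact h
      · refine ⟨3 * k + 1, ?_⟩
        simp only [show (3 * k + 1) % 3 = 1 by omega, one_ne_zero, if_true, if_false,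
          show (3 * k + 1) / 3 = k by omega]
        exact h

/-- The product of the two tree topologies given by disjoint stationary sets of limit levels has
an uncountable closed discrete diagonal. -/
theorem not_lindelof_square {A B : Set Ω} (hAB : Disjoint A B) (hAL : ∀ a ∈ A, Lim a)
    (hBL : ∀ b ∈ B, Lim b) [Uncountable T] :
    ¬ LindelofSpace ((Sp 𝒯 A ⊕ Sp 𝒯 B) × (Sp 𝒯 A ⊕ Sp 𝒯 B)) := by
  intro hL
  have hTC : T3Space (Sp 𝒯 (A ∪ B)) :=
    t3 (𝒯 := 𝒯) (P := {t | 𝒯.lv t ∈ A ∪ B}) fun p hp => hp.elim (hAL _) (hBL _)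
  let d : T → (Sp 𝒯 A ⊕ Sp 𝒯 B) × (Sp 𝒯 A ⊕ Sp 𝒯 B) := fun t => (Sum.inl t, Sum.inr t)
  let φ : Sp 𝒯 A ⊕ Sp 𝒯 B → Sp 𝒯 (A ∪ B) := Sum.elim (toSp 𝒯) (toSp 𝒯)
  have hφ : Continuous φ := (continuous_toSp subset_union_left).sumElim
    (continuous_toSp subset_union_right)
  have hcl : IsClosed (range d) := by
    have : range d = (Prod.fst ⁻¹' (range Sum.inl) ∩ Prod.snd ⁻¹' (range Sum.inr)) ∩
        {p | φ p.1 = φ p.2} := by
      ext ⟨x, y⟩
      constructor
      · rintro ⟨t, ht⟩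
        obtain ⟨rfl, rfl⟩ := Prod.mk.inj ht
        exact ⟨⟨⟨t, rfl⟩, ⟨t, rfl⟩⟩, rfl⟩
      · rintro ⟨⟨⟨t, rfl⟩, ⟨t', rfl⟩⟩, h⟩
        have h : t = t' := h
        subst h
        exact ⟨t, rfl⟩
    rw [this]
    exact ((isClosed_range_inl.preimage continuous_fst).inter
      (isClosed_range_inr.preimage continuous_snd)).inter
      (isClosed_eq (hφ.comp continuous_fst) (hφ.comp continuous_snd))
  have hlin : IsLindelof (range d) := hcl.isLindelof
  classical
  let W : T → Set ((Sp 𝒯 A ⊕ Sp 𝒯 B) × (Sp 𝒯 A ⊕ Sp 𝒯 B)) := fun t =>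
    if 𝒯.lv t ∈ A then univ ×ˢ (Sum.inr '' ({t} : Set (Sp 𝒯 B)))
      else (Sum.inl '' ({t} : Set (Sp 𝒯 A))) ×ˢ univ
  have hW : ∀ t, IsOpen (W t) := by
    intro t
    by_cases h : 𝒯.lv t ∈ A
    · simp only [W, if_pos h]
      exact isOpen_univ.prod (isOpenMap_inr _
        (isOpen_sing hBL t (fun h' => (Set.disjoint_left.1 hAB h) h')))
    · simp only [W, if_neg h]
      exact IsOpen.prod (isOpenMap_inl _ (isOpen_sing hAL t h)) isOpen_univ
  have hW1 : ∀ t s, d s ∈ W t ↔ s = t := by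
    intro t s
    by_cases h : 𝒯.lv t ∈ A
    · simp only [W, if_pos h]
      constructor
      · rintro ⟨-, t', ht', h2⟩
        have ht' : t' = t := ht'
        exact (Sum.inr_injective h2).symm.trans ht'
      · rintro rfl
        exact ⟨mem_univ _, ⟨_, rfl, rfl⟩⟩
    · simp only [W, if_neg h]
      constructor
      · rintro ⟨⟨t', ht', h2⟩, -⟩
        have ht' : t' = t := ht'
        exact (Sum.inl_injective h2).symm.trans ht'
      · rintro rfl
        exact ⟨⟨_, rfl, rfl⟩, mem_univ _⟩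
  obtain ⟨c, hcc, hcs⟩ := hlin.elim_countable_subcover W hW (by
    rintro _ ⟨t, rfl⟩
    exact mem_iUnion.2 ⟨t, (hW1 t t).2 rfl⟩)
  have : (univ : Set T) ⊆ c := by
    intro t _
    obtain ⟨s, hs, hts⟩ := mem_iUnion₂.1 (hcs ⟨t, rfl⟩)
    rw [hW1] at hts
    rw [hts]
    exact hs
  exact not_countable_univ (hcc.mono this)

end tree

/-- There is a Tychonoff space which is Rothberger but not `ω`-Rothberger (even its square is not
Lindelöf). -/
theorem result : ∃ (X : Type) (_ : TopologicalSpace X),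
    T35Space X ∧ Rothberger X ∧ ¬ OmegaRothberger X ∧ ¬ LindelofSpace (X × X) := by
  obtain ⟨Ω, _, _, _, hc⟩ := exists_omega
  choose C hC1 hC2 hC3 using exists_ladder hc
  have 𝒯 : ATree Ω (Node C) := Node.tree hc hC1 hC2 hC3
  have hT : Uncountable (Node C) := Node.uncountable (C := C) hc hC1 hC2 hC3
  obtain ⟨A, B, hA, hB, hAB, hAL, hBL⟩ := exists_disjoint hc
  have hTA : T3Space (Sp 𝒯 A) := t3 (𝒯 := 𝒯) (P := {t | 𝒯.lv t ∈ A}) fun p hp => hAL _ hp
  have hTB : T3Space (Sp 𝒯 B) := t3 (𝒯 := 𝒯) (P := {t | 𝒯.lv t ∈ B}) fun p hp => hBL _ hp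
  have hLA : LindelofSpace (Sp 𝒯 A) := lindelof 𝒯 hc A hA hAL
  have hLB : LindelofSpace (Sp 𝒯 B) := lindelof 𝒯 hc B hB hBL
  have hnl := not_lindelof_square 𝒯 hAB hAL hBL
  refine ⟨Sp 𝒯 A ⊕ Sp 𝒯 B, inferInstance, ?_, ?_, fun h => hnl (lindelof_square h), hnl⟩
  · have : RegularSpace (Sp 𝒯 A ⊕ Sp 𝒯 B) := regular_sum
    infer_instance
  · exact rothberger_sum (rothberger_tree 𝒯 hc A hA hAL) (rothberger_tree 𝒯 hc B hB hBL)

end Pool.Agent.Results.MP_f9bcb0_lc.NotOmegaRothberger
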